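import Pool.Agent.MWFE.StmtsA

/-!
# MWFE, row HVX: the exchange if one of the two tokens is heavy
-/

set_option autoImplicit false

namespace Pool.Agent.MWFE.H94

open Pool.Agent.Helper14_MV Pool.Agent.Helper2_MV Pool.Agent.MVD
open Pool.Agent.MWE (Can XX fxy dxy dx dy up cp L4 pr Xs xl isx Fs nd nr)
open Pool.Agent.MWGR (cb)

/-- a letter with at least three occurrences moves over a power of `z` -/
theorem mv (h3 : HhxStmt) {n : ℕ} {β : FIC} (hz : Hz n β) (a z k : ℕ) (P Q : List ℕ)
    (ha : 3 ≤ (P ++ (a :: (List.replicate k z ++ Q))).count a)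
    (hzz : 3 ≤ (P ++ (a :: (List.replicate k z ++ Q))).count z) :
    RR β (P ++ (a :: (List.replicate k z ++ Q))) (P ++ (List.replicate k z ++ a :: Q)) := by
  induction k generalizing P with
  | zero => exact RR.refl _
  | succ k ih =>
    have e1 : P ++ (a :: (List.replicate (k + 1) z ++ Q)) =
        P ++ a :: z :: (List.replicate k z ++ Q) := by
      rw [List.replicate_succ]; rfl
    have e2 : P ++ z :: a :: (List.replicate k z ++ Q) =
        (P ++ [z]) ++ (a :: (List.replicate k z ++ Q)) := by simp
    have e3 : (P ++ [z]) ++ (List.replicate k z ++ a :: Q) =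
        P ++ (List.replicate (k + 1) z ++ a :: Q) := by
      rw [List.replicate_succ]; simp
    rw [e1] at ha hzz ⊢
    have hp : (P ++ a :: z :: (List.replicate k z ++ Q)).Perm
        ((P ++ [z]) ++ (a :: (List.replicate k z ++ Q))) := by
      rw [← e2]
      exact List.Perm.append_left _ (List.Perm.swap _ _ _)
    have h1 := h3 n β hz P (List.replicate k z ++ Q) a z (Or.inl ha) (Or.inl hzz)
    rw [e2] at h1
    have h2 := ih (P ++ [z]) (by rw [← hp.count_eq]; exact ha) (by rw [← hp.count_eq]; exact hzz)
    rw [e3] at h2
    exact β.trans h1 h2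

/-- **HVX**: the exchange if one of the two tokens is heavy. -/
theorem hvx (h1 : LcfStmt) (h2 : PwlStmt) (h3 : HhxStmt) : HvxStmt := by
  intro n β hz p q c r z x y hzx hzy hxy hM hh
  have hn := hz.n2
  obtain ⟨g, hg⟩ : ∃ g : List ℕ, g = x :: (c ++ [y]) := ⟨_, rfl⟩
  obtain ⟨N, hN⟩ : ∃ N, N = 2 * n := ⟨_, rfl⟩
  obtain ⟨M, hMM⟩ : ∃ M, M = 2 * n - 1 := ⟨_, rfl⟩
  have eW : p ++ (tk n z x 0 ++ (tk n z y 1 ++ (q ++ x :: (c ++ y :: r)))) =
      (p ++ List.replicate n z) ++ (x :: (List.replicate (N + (n + 1)) z ++
        y :: (List.replicate M z ++ (q ++ (g ++ r))))) := by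
    rw [List.replicate_add N]
    subst hN hMM hg
    simp only [tk, List.append_assoc, List.cons_append, List.nil_append, Nat.add_zero, Nat.sub_zero]
  have eW' : p ++ (tk n z y 1 ++ (tk n z x 0 ++ (q ++ x :: (c ++ y :: r)))) =
      (p ++ List.replicate (n + 1) z) ++ (y :: (List.replicate (M + n) z ++
        x :: (List.replicate N z ++ (q ++ (g ++ r))))) := by
    rw [List.replicate_add M]
    subst hN hMM hg
    simp only [tk, List.append_assoc, List.cons_append, List.nil_append, Nat.add_zero, Nat.sub_zero]
  have hcnt : ∀ d, (p ++ (tk n z x 0 ++ (tk n z y 1 ++ (q ++ x :: (c ++ y :: r))))).count d =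
      (p ++ (tk n z y 1 ++ (tk n z x 0 ++ (q ++ x :: (c ++ y :: r))))).count d := by
    intro d
    simp only [List.count_append]
    omega
  obtain ⟨W, hW⟩ : ∃ W, W = p ++ (tk n z x 0 ++ (tk n z y 1 ++ (q ++ x :: (c ++ y :: r)))) :=
    ⟨_, rfl⟩
  obtain ⟨W', hW'⟩ : ∃ W', W' = p ++ (tk n z y 1 ++ (tk n z x 0 ++ (q ++ x :: (c ++ y :: r)))) :=
    ⟨_, rfl⟩
  rw [← hW, ← hW'] at hcnt ⊢
  rw [← hW] at hM hh
  rw [eW] at hW
  rw [eW'] at hW'
  -- counts
  have cz : 3 ≤ W.count z := by
    rw [hW]
    simp only [List.count_append, List.count_cons, List.count_replicate_self]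
    omega
  have cx : 2 ≤ W.count x := by
    rw [hW, hg]
    simp only [List.count_append, List.count_cons_self, List.count_cons]
    omega
  have cy : 2 ≤ W.count y := by
    rw [hW, hg]
    simp only [List.count_append, List.count_cons, List.count_nil, beq_self_eq_true, if_true]
    omega
  have cg : ∀ d ∈ g, 2 ≤ W.count d := by
    intro d hd
    rw [hg, List.mem_cons, List.mem_append, List.mem_singleton] at hd
    rcases hd with rfl | hd | rfl
    · exact cx
    · exact hM d hd
    · exact cy
  have xg : x ∈ g := by rw [hg]; simp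
  have yg : y ∈ g := by rw [hg]; simp
  rcases hh with hx | hy
  · -- `x` moves to the right
    have s1 := mv h3 hz x z (N + (n + 1)) (p ++ List.replicate n z)
      (y :: (List.replicate M z ++ (q ++ (g ++ r)))) (by rw [← hW]; exact hx)
      (by rw [← hW]; exact cz)
    rw [← hW] at s1
    obtain ⟨W1, hW1⟩ : ∃ W1, W1 = (p ++ List.replicate n z ++ List.replicate (N + (n + 1)) z) ++
      x :: y :: (List.replicate M z ++ q ++ (g ++ r)) := ⟨_, rfl⟩
    have c1 : ∀ d, W.count d = W1.count d := by
      intro d
      rw [hW, hW1]
      simp only [List.count_append, List.count_cons]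
      omega
    have e1 : (p ++ List.replicate n z) ++ (List.replicate (N + (n + 1)) z ++
        x :: (y :: (List.replicate M z ++ (q ++ (g ++ r))))) = W1 := by
      rw [hW1]; simp only [List.append_assoc, List.cons_append, List.nil_append]
    rw [e1] at s1
    have s2 := (h1 β hz.ff hz.zz (p ++ List.replicate n z ++ List.replicate (N + (n + 1)) z)
      (List.replicate M z ++ q) g r x y xg yg).1 (by
        intro d hd
        have e : (p ++ List.replicate n z ++ List.replicate (N + (n + 1)) z) ++
          x :: y :: (List.replicate M z ++ q ++ (g ++ r)) = W1 := hW1.symm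
        rw [e, ← c1]
        exact cg d hd)
    rw [← hW1] at s2
    obtain ⟨P2, hP2⟩ : ∃ P2, P2 = p ++ List.replicate n z ++ List.replicate (N + (n + 1)) z ++ [y] :=
      ⟨_, rfl⟩
    have e2 : (p ++ List.replicate n z ++ List.replicate (N + (n + 1)) z) ++
        y :: x :: (List.replicate M z ++ q ++ (g ++ r)) =
        P2 ++ (x :: (List.replicate M z ++ (q ++ (g ++ r)))) := by
      rw [hP2]; simp only [List.append_assoc, List.cons_append, List.nil_append]
    rw [e2] at s2
    have c2 : ∀ d, W.count d = (P2 ++ (x :: (List.replicate M z ++ (q ++ (g ++ r))))).count d := by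
      intro d
      rw [hW, hP2]
      simp only [List.count_append, List.count_cons, List.count_nil]
      omega
    have s3 := mv h3 hz x z M P2 (q ++ (g ++ r)) (by rw [← c2]; exact hx) (by rw [← c2]; exact cz)
    -- the other word
    have s4 := mv h3 hz x z N (p ++ List.replicate (n + 1) z ++ y :: List.replicate (M + n) z)
      (q ++ (g ++ r)) (by
        have e : (p ++ List.replicate (n + 1) z ++ y :: List.replicate (M + n) z) ++
          (x :: (List.replicate N z ++ (q ++ (g ++ r)))) = W' := by rw [hW']; simp only [List.append_assoc, List.cons_append, List.nil_append]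
        rw [e, ← hcnt]; exact hx) (by
        have e : (p ++ List.replicate (n + 1) z ++ y :: List.replicate (M + n) z) ++
          (x :: (List.replicate N z ++ (q ++ (g ++ r)))) = W' := by rw [hW']; simp only [List.append_assoc, List.cons_append, List.nil_append]
        rw [e, ← hcnt]; exact cz)
    have e4 : (p ++ List.replicate (n + 1) z ++ y :: List.replicate (M + n) z) ++
          (x :: (List.replicate N z ++ (q ++ (g ++ r)))) = W' := by rw [hW']; simp only [List.append_assoc, List.cons_append, List.nil_append]
    rw [e4] at s4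
    -- the powers
    have s5 := h2 n β hz p (y :: (List.replicate M z ++ x :: (q ++ (g ++ r)))) z
      (n + (N + (n + 1))) (n + 1) (by
        have : n + (N + (n + 1)) = n + 1 + n * 3 := by rw [hN]; ring
        rw [this]
        exact (Nat.ModEq.refl _).symm.trans (by simp [Nat.ModEq])) (by omega) (by omega)
    have s6 := h2 n β hz (p ++ List.replicate (n + 1) z ++ [y]) (x :: (q ++ (g ++ r))) z
      M (M + n + N) (by
        have : M + n + N = M + n * 3 := by rw [hN]; ring
        rw [this]
        simp [Nat.ModEq]) (by omega) (by omega)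
    have e5 : P2 ++ (List.replicate M z ++ x :: (q ++ (g ++ r))) =
        p ++ (List.replicate (n + (N + (n + 1))) z ++
          (y :: (List.replicate M z ++ x :: (q ++ (g ++ r))))) := by
      rw [hP2, List.replicate_add n]; simp only [List.append_assoc, List.cons_append, List.nil_append]
    have e6 : p ++ (List.replicate (n + 1) z ++ (y :: (List.replicate M z ++
        x :: (q ++ (g ++ r))))) = (p ++ List.replicate (n + 1) z ++ [y]) ++
          (List.replicate M z ++ (x :: (q ++ (g ++ r)))) := by
      simp only [List.append_assoc, List.cons_append, List.nil_append]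
    have e7 : (p ++ List.replicate (n + 1) z ++ [y]) ++
          (List.replicate (M + n + N) z ++ (x :: (q ++ (g ++ r)))) =
        (p ++ List.replicate (n + 1) z ++ y :: List.replicate (M + n) z) ++
          (List.replicate N z ++ x :: (q ++ (g ++ r))) := by
      rw [List.replicate_add (M + n)]; simp only [List.append_assoc, List.cons_append, List.nil_append]
    rw [e5] at s3
    rw [e6] at s5
    rw [e7] at s6
    exact β.trans s1 (β.trans s2 (β.trans s3 (β.trans s5 (β.trans s6 s4.symm))))
  · -- `y` moves to the right
    obtain ⟨P1, hP1⟩ : ∃ P1, P1 = p ++ List.replicate n z ++ x :: List.replicate (N + (n + 1)) z :=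
      ⟨_, rfl⟩
    have e1 : P1 ++ (y :: (List.replicate M z ++ (q ++ (g ++ r)))) = W := by
      rw [hW, hP1]; simp only [List.append_assoc, List.cons_append, List.nil_append]
    have s1 := mv h3 hz y z M P1 (q ++ (g ++ r)) (by rw [e1]; exact hy) (by rw [e1]; exact cz)
    rw [e1] at s1
    -- the other word
    have s2 := mv h3 hz y z (M + n) (p ++ List.replicate (n + 1) z)
      (x :: (List.replicate N z ++ (q ++ (g ++ r)))) (by rw [← hW', ← hcnt]; exact hy)
      (by rw [← hW', ← hcnt]; exact cz)
    rw [← hW'] at s2
    obtain ⟨P2, hP2⟩ : ∃ P2, P2 = p ++ List.replicate (n + 1) z ++ List.replicate (M + n) z :=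
      ⟨_, rfl⟩
    have e2 : (p ++ List.replicate (n + 1) z) ++ (List.replicate (M + n) z ++
        y :: (x :: (List.replicate N z ++ (q ++ (g ++ r))))) =
        P2 ++ y :: x :: (List.replicate N z ++ q ++ (g ++ r)) := by
      rw [hP2]; simp only [List.append_assoc, List.cons_append, List.nil_append]
    rw [e2] at s2
    have c2 : ∀ d, W.count d = (P2 ++ y :: x :: (List.replicate N z ++ q ++ (g ++ r))).count d := by
      intro d
      rw [hcnt, hW', hP2]
      simp only [List.count_append, List.count_cons]
      omega
    have s3 := (h1 β hz.ff hz.zz P2 (List.replicate N z ++ q) g r y x yg xg).1 (by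
        intro d hd
        rw [← c2]
        exact cg d hd)
    obtain ⟨P3, hP3⟩ : ∃ P3, P3 = P2 ++ [x] := ⟨_, rfl⟩
    have e3 : P2 ++ x :: y :: (List.replicate N z ++ q ++ (g ++ r)) =
        P3 ++ (y :: (List.replicate N z ++ (q ++ (g ++ r)))) := by
      rw [hP3]; simp only [List.append_assoc, List.cons_append, List.nil_append]
    rw [e3] at s3
    have c3 : ∀ d, W.count d = (P3 ++ (y :: (List.replicate N z ++ (q ++ (g ++ r))))).count d := by
      intro d
      rw [c2, hP3]
      simp only [List.count_append, List.count_cons, List.count_nil]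
      omega
    have s4 := mv h3 hz y z N P3 (q ++ (g ++ r)) (by rw [← c3]; exact hy) (by rw [← c3]; exact cz)
    -- the powers
    have s5 := h2 n β hz p (x :: (List.replicate (N + (n + 1) + M) z ++ y :: (q ++ (g ++ r)))) z
      n (n + 1 + (M + n)) (by
        have : n + 1 + (M + n) = n + n * 3 := by omega
        rw [this]
        simp [Nat.ModEq]) (by omega) (by omega)
    have s6 := h2 n β hz (p ++ List.replicate (n + 1 + (M + n)) z ++ [x]) (y :: (q ++ (g ++ r))) z
      (N + (n + 1) + M) N (by
        have : N + (n + 1) + M = N + n * 3 := by omega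
        rw [this]
        simp [Nat.ModEq]) (by omega) (by omega)
    have e5 : P1 ++ (List.replicate M z ++ y :: (q ++ (g ++ r))) =
        p ++ (List.replicate n z ++
          (x :: (List.replicate (N + (n + 1) + M) z ++ y :: (q ++ (g ++ r))))) := by
      rw [hP1, List.replicate_add (N + (n + 1))]; simp only [List.append_assoc, List.cons_append, List.nil_append]
    have e6 : p ++ (List.replicate (n + 1 + (M + n)) z ++
          (x :: (List.replicate (N + (n + 1) + M) z ++ y :: (q ++ (g ++ r))))) =
        (p ++ List.replicate (n + 1 + (M + n)) z ++ [x]) ++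
          (List.replicate (N + (n + 1) + M) z ++ (y :: (q ++ (g ++ r)))) := by
      simp only [List.append_assoc, List.cons_append, List.nil_append]
    have e7 : (p ++ List.replicate (n + 1 + (M + n)) z ++ [x]) ++
          (List.replicate N z ++ (y :: (q ++ (g ++ r)))) =
        P3 ++ (List.replicate N z ++ y :: (q ++ (g ++ r))) := by
      rw [hP3, hP2, List.replicate_add (n + 1)]; simp only [List.append_assoc, List.cons_append, List.nil_append]
    rw [e5] at s1
    rw [e6] at s5
    rw [e7] at s6
    exact β.trans s1 (β.trans s5 (β.trans s6 (β.trans s4.symm (β.trans s3.symm s2.symm))))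

end Pool.Agent.MWFE.H94
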